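import Pool.Agent.H27.JN3

set_option autoImplicit false

namespace Pool.Agent.Results.MP_b101b2_co.Mate

open Finset Pool.Agent.H27.JN

/-- the generalized Johnson graph `J_S(n, k)` -/
def J (S : Set ℕ) (n k : ℕ) : SimpleGraph {A : Finset (Fin n) // A.card = k} where
  Adj A B := A ≠ B ∧ (A.1 ∩ B.1).card ∈ S
  symm := ⟨fun _ _ h => ⟨h.1.symm, by rw [inter_comm]; exact h.2⟩⟩
  loopless := ⟨fun _ h => h.1 rfl⟩

/-- the even numbers `s` with `2 ≤ s ≤ k - 1` -/
def E (k : ℕ) : Set ℕ := {s | 2 ≤ s ∧ s ≤ k - 1 ∧ Even s}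

open Classical in
theorem result (k : ℕ) (hk : 7 ≤ k) :
    ∃ H : SimpleGraph {A : Finset (Fin (2 * k)) // A.card = k},
      (H.adjMatrix ℝ).charpoly = ((J (E k) (2 * k) k).adjMatrix ℝ).charpoly ∧
        IsEmpty (H ≃g J (E k) (2 * k) k) := by
  have inj : Function.Injective (Fin.castLE (show 4 ≤ 2 * k by omega)) := Fin.castLE_injective _
  obtain ⟨X, h1, h2⟩ := exists_subset_card_eq
    (s := (univ.image (Fin.castLE (show 4 ≤ 2 * k by omega)))ᶜ) (n := k - 2) (by
      rw [card_compl, card_image_of_injective _ inj]; simp; omega)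
  obtain ⟨H, i, h3, h4⟩ := main (G := J (E k) (2 * k) k)
    ⟨_, X, inj, fun a h => by simpa using h1 h, by omega, hk, by simp⟩ fun u v => by
      have c1 := card_union_add_card_inter u.1 v.1
      have c2 : #(u.1 ∪ v.1) ≤ 2 * k := (card_le_univ _).trans (by simp)
      rw [u.2, v.2] at c1
      rw [L_chi, ZMod.natCast_eq_zero_iff_even]
      refine ⟨fun ⟨a, b, _, c⟩ => ⟨a.symm, fun h => ?_, c⟩, fun ⟨a, b, c⟩ => ⟨a.symm, ?_, ?_, c⟩⟩
      · rw [h] at b; simp [co] at b
      · by_contra h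
        have h0 : #(u.1 ∩ v.1) = 0 := by obtain ⟨r, hr⟩ := c; omega
        refine b (Subtype.ext (eq_of_subset_of_card_le (fun x hx => ?_) ?_))
        · exact mem_compl.2 fun hu => by
            have := card_pos.2 ⟨x, mem_inter.2 ⟨hu, hx⟩⟩
            omega
        · rw [v.2, (co _ u).2]
      · by_contra h
        have e := eq_of_subset_of_card_le (inter_subset_left (s₁ := u.1) (s₂ := v.1))
          (by rw [u.2]; omega)
        exact a (Subtype.ext (eq_of_subset_of_card_le (inter_eq_left.1 e)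
          (by rw [u.2, v.2])).symm)
  obtain rfl : i = fun _ _ => propDecidable _ := Subsingleton.elim _ _
  exact ⟨H, h3, h4⟩

end Pool.Agent.Results.MP_b101b2_co.Mate
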